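import Pool.Agent.V11250.FAlg4

/-!
# MP_7ba13c_lc: the variety of associative algebras is logically perfect and regular
-/

set_option autoImplicit false

namespace Pool.Agent.Results.MP_7ba13c_lc.PerfectRegular

open FirstOrder Pool.Agent.Helper771.FreeNilp Pool.Agent.V11250.IsoDefs
  Pool.Agent.V11250.NilpAssocDefs Pool.Agent.V11250.AssDefs Pool.Agent.V11250.DefTool
  Pool.Agent.V11250.FAlg

universe u

/-- For every field `K` the variety of all associative (not necessarily unital) `K`-algebras is
logically perfect and logically regular. -/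
theorem result (K : Type u) [Field K] :
    Pool.Agent.V11250.AssDefs.LogicallyPerfect K ∧
      Pool.Agent.V11250.AssDefs.LogicallyRegular K := by
  -- homogeneity
  have hom : ∀ (r : ℕ) (A : Type u) [NonUnitalRing A] [Module K A] [IsScalarTower K A A]
      [SMulCommClass K A A] (x : Fin r → A), IsFreeAss K r A x →
      Pool.Agent.V11250.AssDefs.Homogeneous K A := by
    intro r A _ _ _ _ x hx m μ ν
    obtain ⟨M⟩ := exists_mdl hx
    obtain ⟨B, hB, hBx, hBgen⟩ := exists_pred M
    constructor
    · intro h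
      choose t ht using fun i => exists_term (adjoin_top M (μ i))
      -- the formula
      have hD : Dfn (algLang K) (fun v : Fin m → A => ∃ y : Fin r → A, B y ∧
          ∀ i, v i = (t i).realize y) := by
        refine Dfn.exs (P := fun (v : Fin m → A) (y : Fin r → A) => B y ∧
          ∀ i, v i = (t i).realize y) ?_
        refine Dfn.and (hB.relabel Sum.inr) (Dfn.forallFin fun i => Dfn.eq (TF.var _) ?_)
        exact ⟨(t i).relabel Sum.inr, fun v => by rw [Language.Term.realize_relabel]; rfl⟩
      obtain ⟨φ, hφ⟩ := hD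
      have h1 : φ.Realize μ := (hφ μ).2 ⟨x, hBx, fun i => (ht i).symm⟩
      have h2 : φ.Realize ν := (Set.ext_iff.1 h φ).1 h1
      obtain ⟨y, hy, hyt⟩ := (hφ ν).1 h2
      obtain ⟨σ, hσ, hσx⟩ := exists_aut hx y (hBgen y hy)
      refine ⟨σ, hσ, fun i => ?_⟩
      rw [← ht i, hom_realize, hyt i]
      congr 1
      funext k
      exact hσx k
    · rintro ⟨σ, hσ, h⟩
      exact tp_eq_of_aut μ ν σ hσ h
  refine ⟨hom, ?_⟩
  -- separability
  intro r A _ _ _ _ x hx B _ _ _ _ hiso
  obtain ⟨M⟩ := exists_mdl hx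
  obtain ⟨y, hxy, hy⟩ := exists_gen x 0 (by
    intro ν hν a
    obtain ⟨σ, hσ, h⟩ := (hom r A x hx r x ν).1 hν.symm
    obtain ⟨b, rfl⟩ := hσ.2 a
    obtain ⟨t, rfl⟩ := exists_term (adjoin_top M b)
    refine ⟨t, ?_⟩
    rw [hom_realize]
    congr 1
    funext i
    exact (h i).symm) hiso
  obtain ⟨f, hf, _⟩ := hx B y
  have hft : ∀ t : (algLang K).Term (Fin r), f (t.realize x) = t.realize y := by
    intro t
    rw [hom_realize]
    congr 1
    funext i
    exact hf i
  refine ⟨f, ?_, ?_⟩
  · rw [injective_iff_map_eq_zero]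
    intro a ha
    obtain ⟨t, rfl⟩ := exists_term (adjoin_top M a)
    rw [hft] at ha
    have h0 : ∀ {C : Type u} [NonUnitalRing C] [Module K C] (v : Fin r → C),
        (Language.Term.func (l := 0) (AlgFn.zero : AlgFn K 0) ![] :
          (algLang K).Term (Fin r)).realize v = 0 := fun _ => rfl
    have h1 := (eq_iff_of_tp hxy t
      (Language.Term.func (l := 0) (AlgFn.zero : AlgFn K 0) ![])).2
    rw [h0, h0] at h1
    exact h1 ha
  · intro u
    obtain ⟨t, rfl⟩ := hy u
    exact ⟨t.realize x, hft t⟩

end Pool.Agent.Results.MP_7ba13c_lc.PerfectRegular
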